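import Pool.Agent.H95R2.BG.BV
import Pool.Agent.H378R2.M7r
import Pool.Agent.Helper923.HMertens

/-! Job PSP-SMO: many primes `p ≤ y` with `p - 1` divisible by a large prime: tools. -/

set_option autoImplicit false

open Finset Filter

namespace Pool.Agent.Y950.SMO

open Pool.Agent.H378R2 (EPhi Phi LPhi)

/-- the number of large prime factors -/
lemma card_large {y : ℕ} (a : ℕ) (ha : y < (a + 1) ^ 4) (n : ℕ) (hn1 : 1 < n) (hny : n ≤ y)
    (R : Finset ℕ) (hR : ∀ r ∈ R, r.Prime ∧ a < r) :
    (R.filter (fun r => n ≡ 1 [MOD r])).card ≤ 3 := by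
  by_contra hcon
  have h4 : 4 ≤ (R.filter (fun r => n ≡ 1 [MOD r])).card := by omega
  have hdvd : ∏ r ∈ R.filter (fun r => n ≡ 1 [MOD r]), r ∣ n - 1 := by
    apply Finset.prod_primes_dvd
    · intro r hr
      exact (hR r (Finset.mem_filter.1 hr).1).1.prime
    · intro r hr
      exact (Nat.modEq_iff_dvd' hn1.le).1 (Finset.mem_filter.1 hr).2.symm
  have hle : ∏ r ∈ R.filter (fun r => n ≡ 1 [MOD r]), r ≤ n - 1 :=
    Nat.le_of_dvd (by omega) hdvd
  have h5 : (a + 1) ^ 4 ≤ ∏ r ∈ R.filter (fun r => n ≡ 1 [MOD r]), r := by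
    calc (a + 1) ^ 4 ≤ (a + 1) ^ (R.filter (fun r => n ≡ 1 [MOD r])).card :=
          Nat.pow_le_pow_right (by omega) h4
      _ = ∏ r ∈ R.filter (fun r => n ≡ 1 [MOD r]), (a + 1) := by rw [Finset.prod_const]
      _ ≤ _ := Finset.prod_le_prod' fun r hr => (hR r (Finset.mem_filter.1 hr).1).2
  omega

lemma Phi_nonneg (u : ℝ) : 0 ≤ Phi u := le_max_left _ _

lemma Phi_le_one (u : ℝ) : Phi u ≤ 1 := by
  unfold Phi
  apply max_le (by norm_num)
  have := abs_nonneg (Real.log u - 1 / 2)
  linarith

lemma Phi_zero {u : ℝ} (h0 : 0 ≤ u) (h : u ≤ 1) : Phi u = 0 := by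
  unfold Phi
  apply max_eq_left
  have h1 : Real.log u ≤ 0 := Real.log_nonpos h0 h
  have := neg_abs_le (Real.log u - 1 / 2)
  linarith

/-- the sum over the primes `r`, from above -/
lemma upper {y : ℕ} (hy : 3 ≤ y) (a : ℕ) (ha : y < (a + 1) ^ 4) (R : Finset ℕ)
    (hR : ∀ r ∈ R, r.Prime ∧ a < r) :
    ∑ r ∈ R, ∑ n ∈ (Icc 1 y).filter (fun n => n ≡ 1 [MOD r]),
      Phi (n / ((y : ℝ) / 3)) * ArithmeticFunction.vonMangoldt n ≤
    3 * ((((Icc 1 y).filter (fun p => p.Prime ∧ ∃ r ∈ R, r ∣ p - 1)).card : ℝ) * Real.log y +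
      2 * Real.sqrt y * Real.log y) := by
  classical
  set X : ℝ := (y : ℝ) / 3 with hX
  have hy3 : (3 : ℝ) ≤ y := by exact_mod_cast hy
  have hX1 : 1 ≤ X := by rw [hX]; linarith
  have hX0 : 0 < X := by linarith
  set P := (Icc 1 y).filter (fun p => p.Prime ∧ ∃ r ∈ R, r ∣ p - 1) with hP
  have h1 : ∑ r ∈ R, ∑ n ∈ (Icc 1 y).filter (fun n => n ≡ 1 [MOD r]),
      Phi (n / X) * ArithmeticFunction.vonMangoldt n =
      ∑ n ∈ Icc 1 y, (Phi (n / X) * ArithmeticFunction.vonMangoldt n) *
        ((R.filter (fun r => n ≡ 1 [MOD r])).card : ℝ) := by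
    simp only [Finset.sum_filter, Finset.card_filter, Nat.cast_sum, Finset.mul_sum]
    rw [Finset.sum_comm]
    refine Finset.sum_congr rfl fun n _ => Finset.sum_congr rfl fun r _ => ?_
    split_ifs <;> simp
  rw [h1]
  have h2 : ∀ n ∈ Icc 1 y, (Phi (n / X) * ArithmeticFunction.vonMangoldt n) *
        ((R.filter (fun r => n ≡ 1 [MOD r])).card : ℝ) ≤
      3 * ((if n ∈ P then Real.log y else 0) +
        (if ¬ n.Prime then ArithmeticFunction.vonMangoldt n else 0)) := by
    intro n hn
    rw [mem_Icc] at hn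
    have hΛ : 0 ≤ ArithmeticFunction.vonMangoldt n := ArithmeticFunction.vonMangoldt_nonneg
    have hΛ2 : ArithmeticFunction.vonMangoldt n ≤ Real.log y :=
      ArithmeticFunction.vonMangoldt_le_log.trans
        (Real.log_le_log (by exact_mod_cast hn.1) (by exact_mod_cast hn.2))
    have hly : 0 ≤ Real.log y := Real.log_natCast_nonneg y
    have hrhs : 0 ≤ 3 * ((if n ∈ P then Real.log y else 0) +
        (if ¬ n.Prime then ArithmeticFunction.vonMangoldt n else 0)) := by
      split_ifs <;> positivity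
    by_cases hnX : (n : ℝ) ≤ X
    · rw [Phi_zero (by positivity) ((div_le_one hX0).2 hnX), zero_mul, zero_mul]
      exact hrhs
    · have hn1 : 1 < n := by
        have : (1 : ℝ) < n := by linarith [not_le.1 hnX]
        exact_mod_cast this
      have hc := card_large a ha n hn1 hn.2 R hR
      have hc' : ((R.filter (fun r => n ≡ 1 [MOD r])).card : ℝ) ≤ 3 := by exact_mod_cast hc
      have hPL : Phi (n / X) * ArithmeticFunction.vonMangoldt n ≤ ArithmeticFunction.vonMangoldt n := by
        calc _ ≤ 1 * ArithmeticFunction.vonMangoldt n :=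
              mul_le_mul_of_nonneg_right (Phi_le_one _) hΛ
          _ = _ := one_mul _
      have hPL0 : 0 ≤ Phi (n / X) * ArithmeticFunction.vonMangoldt n := mul_nonneg (Phi_nonneg _) hΛ
      by_cases hp : n.Prime
      · by_cases hnP : n ∈ P
        · rw [if_pos hnP, if_neg (by simpa using hp), add_zero]
          calc _ ≤ ArithmeticFunction.vonMangoldt n * 3 :=
                mul_le_mul hPL hc' (by positivity) hΛ
            _ ≤ Real.log y * 3 := by linarith
            _ = _ := by ring
        · have : R.filter (fun r => n ≡ 1 [MOD r]) = ∅ := by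
            rw [Finset.filter_eq_empty_iff]
            intro r hr hmod
            apply hnP
            rw [hP, Finset.mem_filter, mem_Icc]
            exact ⟨hn, hp, r, hr, (Nat.modEq_iff_dvd' hn1.le).1 hmod.symm⟩
          rw [this, Finset.card_empty, Nat.cast_zero, mul_zero]
          exact hrhs
      · rw [if_pos hp]
        calc _ ≤ ArithmeticFunction.vonMangoldt n * 3 :=
              mul_le_mul hPL hc' (by positivity) hΛ
          _ ≤ _ := by
              have : 0 ≤ (if n ∈ P then Real.log y else 0) := by split_ifs <;> simp [hly]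
              linarith
  refine (Finset.sum_le_sum h2).trans ?_
  rw [← Finset.mul_sum, Finset.sum_add_distrib]
  apply mul_le_mul_of_nonneg_left _ (by norm_num)
  apply add_le_add
  · rw [← Finset.sum_filter, Finset.sum_const, nsmul_eq_mul]
    apply mul_le_mul_of_nonneg_right _ (Real.log_natCast_nonneg y)
    have : (Icc 1 y).filter (fun n => n ∈ P) ⊆ P := fun n hn => (Finset.mem_filter.1 hn).2
    exact_mod_cast Finset.card_le_card this
  · rw [← Finset.sum_filter]
    have h3 := Chebyshev.psi_sub_theta_eq_sum_not_prime (y : ℝ)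
    have h4 := Chebyshev.psi_sub_theta_le (x := (y : ℝ)) (by linarith)
    have h5 : Ioc 0 y = Icc 1 y := by
      ext m
      rw [mem_Ioc, mem_Icc]
      omega
    rw [h3, Nat.floor_natCast, h5] at h4
    exact h4

end Pool.Agent.Y950.SMO
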