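import Pool.Agent.Y727.PSP.Stm
import Pool.Agent.Y950.Z.Smo1

/-! Job PSP-SMO: many primes `p ≤ y` with `p - 1` dividing a number with small logarithm. -/

set_option autoImplicit false

open Finset Filter

namespace Pool.Agent.Y950.SMO

open Pool.Agent.H378R2 (EPhi Phi LPhi)

/-- the sum over the primes `r`, from below -/
lemma lower : ∀ᶠ y : ℕ in atTop,
    (y : ℝ) / 12000 ≤ ∑ r ∈ (Ioc ⌊(y : ℝ) ^ (1 / 4 : ℝ)⌋₊ ⌊(y : ℝ) ^ (1 / 3 : ℝ)⌋₊).filter Nat.Prime,
      ∑ n ∈ (Icc 1 y).filter (fun n => n ≡ 1 [MOD r]),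
        Phi (n / ((y : ℝ) / 3)) * ArithmeticFunction.vonMangoldt n := by
  obtain ⟨C, hC0, hC⟩ := Pool.Agent.Helper923.HMertens.mertens_ratio
  have hcast : Tendsto (fun y : ℕ => (y : ℝ)) atTop atTop := tendsto_natCast_atTop_atTop
  have hX : Tendsto (fun y : ℕ => (y : ℝ) / 3) atTop atTop := hcast.atTop_div_const (by norm_num)
  have hbv := hX.eventually (H95R2.BG.bv_tent 1 one_pos (2 / 5) (by norm_num) 0 2)
  have hL := hX.eventually H378R2.LPhi_ge
  have hlogX := hX.eventually (Real.tendsto_log_atTop.eventually_ge_atTop 64)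
  have hlog := hcast.eventually (Real.tendsto_log_atTop.eventually_ge_atTop (40 * C + 100))
  have h15 := hcast.eventually ((tendsto_rpow_atTop
    (by norm_num : (0 : ℝ) < 1 / 15)).eventually_ge_atTop 3)
  have h14 := hcast.eventually ((tendsto_rpow_atTop
    (by norm_num : (0 : ℝ) < 1 / 4)).eventually_ge_atTop 4)
  have h13 := hcast.eventually ((tendsto_rpow_atTop
    (by norm_num : (0 : ℝ) < 1 / 3)).eventually_ge_atTop 4)
  filter_upwards [hbv, hL, hlogX, hlog, h15, h14, h13, eventually_ge_atTop 3] with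
    y hbv hL hlogX hlog h15 h14 h13 hy3
  have hy0 : (0 : ℝ) < y := by exact_mod_cast (by omega : 0 < y)
  have hy1 : (1 : ℝ) ≤ y := by exact_mod_cast (by omega : 1 ≤ y)
  set X : ℝ := (y : ℝ) / 3 with hXdef
  have hX0 : 0 < X := by positivity
  have h3X : ⌊3 * X⌋₊ = y := by
    rw [hXdef, mul_div_cancel₀ _ (by norm_num : (3 : ℝ) ≠ 0), Nat.floor_natCast]
  set a := ⌊(y : ℝ) ^ (1 / 4 : ℝ)⌋₊ with ha
  set b := ⌊(y : ℝ) ^ (1 / 3 : ℝ)⌋₊ with hb
  have ha1 : (a : ℝ) ≤ (y : ℝ) ^ (1 / 4 : ℝ) := Nat.floor_le (by positivity)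
  have ha2 : (y : ℝ) ^ (1 / 4 : ℝ) < a + 1 := Nat.lt_floor_add_one _
  have hb1 : (b : ℝ) ≤ (y : ℝ) ^ (1 / 3 : ℝ) := Nat.floor_le (by positivity)
  have hb2 : (y : ℝ) ^ (1 / 3 : ℝ) < b + 1 := Nat.lt_floor_add_one _
  have ha3 : 2 ≤ a := by
    have : (2 : ℝ) < a := by linarith
    exact_mod_cast this.le
  have hab : a ≤ b := Nat.floor_le_floor (Real.rpow_le_rpow_of_exponent_le hy1 (by norm_num))
  set L := Real.log y with hLdef
  have hl2 : Real.log 2 ≤ 1 := by have := Real.log_two_lt_d9; linarith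
  have hloga1 : Real.log a ≤ 1 / 4 * L := by
    rw [← Real.log_rpow hy0]
    exact Real.log_le_log (by exact_mod_cast (by omega : 0 < a)) ha1
  have hloga2 : 1 / 4 * L - 1 ≤ Real.log a := by
    have h : (y : ℝ) ^ (1 / 4 : ℝ) / 2 ≤ a := by linarith
    have h' := Real.log_le_log (by positivity) h
    rw [Real.log_div (by positivity) (by norm_num), Real.log_rpow hy0] at h'
    linarith
  have hlogb : 1 / 3 * L - 1 ≤ Real.log b := by
    have h : (y : ℝ) ^ (1 / 3 : ℝ) / 2 ≤ b := by linarith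
    have h' := Real.log_le_log (by positivity) h
    rw [Real.log_div (by positivity) (by norm_num), Real.log_rpow hy0] at h'
    linarith
  have hloga0 : 0 < Real.log a := by linarith
  have hratio : 5 / 4 ≤ Real.log b / Real.log a := by
    rw [le_div_iff₀ hloga0]
    linarith
  have hll : 1 / 5 ≤ Real.log (Real.log b / Real.log a) := by
    have h1 : Real.log (5 / 4) ≤ Real.log (Real.log b / Real.log a) :=
      Real.log_le_log (by norm_num) hratio
    have h2 := Real.one_sub_inv_le_log_of_pos (by norm_num : (0 : ℝ) < 5 / 4)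
    norm_num at h2
    linarith
  have hsum : 1 / 10 ≤ ∑ p ∈ (Ioc a b).filter Nat.Prime, (1 : ℝ) / p := by
    have h1 := (abs_le.1 (hC a b ha3 hab)).1
    have h2 : C / Real.log a ≤ 1 / 10 := by
      rw [div_le_iff₀ hloga0]
      linarith
    linarith
  set R := (Ioc a b).filter Nat.Prime with hR
  -- the discrepancies
  have hbv' := hbv (fun _ => 1) (fun q => Nat.coprime_one_left _)
  have hsub : R ⊆ (Icc 1 ⌊X ^ (2 / 5 : ℝ)⌋₊).filter (fun q => Squarefree q) := by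
    intro r hr
    rw [hR, Finset.mem_filter, mem_Ioc] at hr
    rw [Finset.mem_filter, mem_Icc]
    refine ⟨⟨hr.2.one_lt.le, Nat.le_floor ?_⟩, hr.2.squarefree⟩
    have h1 : (r : ℝ) ≤ (y : ℝ) ^ (1 / 3 : ℝ) := le_trans (by exact_mod_cast hr.1.2) hb1
    refine h1.trans ?_
    rw [hXdef, Real.div_rpow hy0.le (by norm_num), le_div_iff₀ (by positivity)]
    have h2 : (3 : ℝ) ^ (2 / 5 : ℝ) ≤ 3 := by
      calc (3 : ℝ) ^ (2 / 5 : ℝ) ≤ 3 ^ (1 : ℝ) :=
            Real.rpow_le_rpow_of_exponent_le (by norm_num) (by norm_num)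
        _ = 3 := Real.rpow_one 3
    calc (y : ℝ) ^ (1 / 3 : ℝ) * 3 ^ (2 / 5 : ℝ) ≤ (y : ℝ) ^ (1 / 3 : ℝ) * (y : ℝ) ^ (1 / 15 : ℝ) :=
          mul_le_mul_of_nonneg_left (h2.trans h15) (by positivity)
      _ = (y : ℝ) ^ (2 / 5 : ℝ) := by rw [← Real.rpow_add hy0]; norm_num
  have hdisc : ∑ r ∈ R, |EPhi X (1 * r) 1| ≤ X / 4000 := by
    calc ∑ r ∈ R, |EPhi X (1 * r) 1|
        ≤ ∑ q ∈ (Icc 1 ⌊X ^ (2 / 5 : ℝ)⌋₊).filter (fun q => Squarefree q), |EPhi X (1 * q) 1| :=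
          Finset.sum_le_sum_of_subset_of_nonneg hsub fun _ _ _ => abs_nonneg _
      _ ≤ X / (Real.log X) ^ 2 := by simpa using hbv'
      _ ≤ X / 4000 := by
          apply div_le_div_of_nonneg_left hX0.le (by norm_num)
          nlinarith
  have hLP : 0 ≤ LPhi X := le_trans (by positivity) hL
  have hone : ∀ r ∈ R, LPhi X * (1 / (r : ℝ)) - |EPhi X (1 * r) 1| ≤
      ∑ n ∈ (Icc 1 y).filter (fun n => n ≡ 1 [MOD r]),
        Phi (n / X) * ArithmeticFunction.vonMangoldt n := by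
    intro r hr
    rw [hR, Finset.mem_filter] at hr
    have h1 : EPhi X (1 * r) 1 = ∑ n ∈ (Icc 1 y).filter (fun n => n ≡ 1 [MOD r]),
        Phi (n / X) * ArithmeticFunction.vonMangoldt n - LPhi X * (1 / (Nat.totient r : ℝ)) := by
      rw [H378R2.EPhi_eq, h3X, one_mul]
    have h2 : LPhi X * (1 / (r : ℝ)) ≤ LPhi X * (1 / (Nat.totient r : ℝ)) := by
      apply mul_le_mul_of_nonneg_left _ hLP
      apply one_div_le_one_div_of_le
      · exact_mod_cast Nat.totient_pos.2 hr.2.pos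
      · exact_mod_cast Nat.totient_le r
    have h3 := neg_abs_le (EPhi X (1 * r) 1)
    linarith
  calc (y : ℝ) / 12000 = X / 4000 := by rw [hXdef]; ring
    _ = (X / 200) * (1 / 10) - X / 4000 := by ring
    _ ≤ LPhi X * ∑ p ∈ R, (1 : ℝ) / p - ∑ r ∈ R, |EPhi X (1 * r) 1| := by
        apply sub_le_sub _ hdisc
        exact mul_le_mul hL hsum (by norm_num) hLP
    _ = ∑ r ∈ R, (LPhi X * (1 / (r : ℝ)) - |EPhi X (1 * r) 1|) := by
        rw [Finset.sum_sub_distrib, Finset.mul_sum]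
    _ ≤ _ := Finset.sum_le_sum hone

theorem smo : Pool.Agent.Y727.PSP.S_SMO := by
  classical
  have hcast : Tendsto (fun y : ℕ => (y : ℝ)) atTop atTop := tendsto_natCast_atTop_atTop
  have e1 : (fun X : ℝ => Real.log X) =o[atTop] (fun X : ℝ => X ^ (1 / 2 : ℝ)) :=
    isLittleO_log_rpow_atTop (by norm_num)
  have e2 : (fun X : ℝ => Real.log X) =o[atTop] (fun X : ℝ => X ^ (1 / 20 : ℝ)) :=
    isLittleO_log_rpow_atTop (by norm_num)
  have h1 := hcast.eventually (e1.def (by norm_num : (0 : ℝ) < 1 / 144000))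
  have h2 := hcast.eventually (e2.def (by norm_num : (0 : ℝ) < 1 / 2))
  obtain ⟨y₀, hy₀⟩ := eventually_atTop.1 ((lower.and (h1.and h2)).and (eventually_ge_atTop 3))
  refine ⟨1 / 72000, by norm_num, y₀, fun y hy => ?_⟩
  obtain ⟨⟨hlow, h1, h2⟩, hy3⟩ := hy₀ y hy
  have hy0 : (0 : ℝ) < y := by exact_mod_cast (by omega : 0 < y)
  have hy1 : (1 : ℝ) ≤ y := by exact_mod_cast (by omega : 1 ≤ y)
  have hL0 : 0 < Real.log y := Real.log_pos (by exact_mod_cast (by omega : 1 < y))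
  rw [Real.norm_of_nonneg hL0.le, Real.norm_of_nonneg (by positivity)] at h1 h2
  set a := ⌊(y : ℝ) ^ (1 / 4 : ℝ)⌋₊ with ha
  set b := ⌊(y : ℝ) ^ (1 / 3 : ℝ)⌋₊ with hb
  set Z := ⌊(y : ℝ) ^ (3 / 4 : ℝ)⌋₊ with hZ
  have ha2 : (y : ℝ) ^ (1 / 4 : ℝ) < a + 1 := Nat.lt_floor_add_one _
  have hb1 : (b : ℝ) ≤ (y : ℝ) ^ (1 / 3 : ℝ) := Nat.floor_le (by positivity)
  have ha4 : y < (a + 1) ^ 4 := by
    have h : (y : ℝ) < ((a : ℝ) + 1) ^ 4 := by
      calc (y : ℝ) = ((y : ℝ) ^ (1 / 4 : ℝ)) ^ 4 := by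
            rw [← Real.rpow_natCast, ← Real.rpow_mul hy0.le]
            norm_num
        _ < ((a : ℝ) + 1) ^ 4 := pow_lt_pow_left₀ ha2 (by positivity) (by norm_num)
    exact_mod_cast h
  set R := (Ioc a b).filter Nat.Prime with hR
  have hRp : ∀ r ∈ R, r.Prime ∧ a < r := by
    intro r hr
    rw [hR, Finset.mem_filter, mem_Ioc] at hr
    exact ⟨hr.2, hr.1.1⟩
  have hup := upper hy3 a ha4 R hRp
  set P := (Icc 1 y).filter (fun p => p.Prime ∧ ∃ r ∈ R, r ∣ p - 1) with hP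
  refine ⟨P, Z.factorial * Z.factorial, ?_, ?_, ?_, ?_⟩
  · intro p hp
    rw [hP, Finset.mem_filter, mem_Icc] at hp
    obtain ⟨⟨hp1, hpy⟩, hpp, r, hr, hrp⟩ := hp
    refine ⟨hpp, hpy, ?_⟩
    obtain ⟨m, hm⟩ := hrp
    have hrR := hRp r hr
    have hrb : r ≤ b := by
      rw [hR, Finset.mem_filter, mem_Ioc] at hr
      exact hr.1.2
    have hp2 := hpp.two_le
    have hm0 : 1 ≤ m := by
      rcases Nat.eq_zero_or_pos m with h | h
      · rw [h, mul_zero] at hm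
        omega
      · exact h
    rw [hm]
    apply Nat.mul_dvd_mul
    · apply Nat.dvd_factorial hrR.1.pos
      apply hrb.trans
      exact Nat.floor_le_floor (Real.rpow_le_rpow_of_exponent_le hy1 (by norm_num))
    · apply Nat.dvd_factorial hm0
      apply Nat.le_floor
      have h3 : (a : ℝ) + 1 ≤ r := by exact_mod_cast hrR.2
      have h4 : (r : ℝ) * m ≤ y := by
        have : r * m ≤ y := by omega
        exact_mod_cast this
      have h5 : (y : ℝ) ^ (1 / 4 : ℝ) * m ≤ (y : ℝ) ^ (1 / 4 : ℝ) * (y : ℝ) ^ (3 / 4 : ℝ) := by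
        calc (y : ℝ) ^ (1 / 4 : ℝ) * m ≤ (r : ℝ) * m :=
              mul_le_mul_of_nonneg_right (by linarith) (Nat.cast_nonneg _)
          _ ≤ y := h4
          _ = (y : ℝ) ^ (1 / 4 : ℝ) * (y : ℝ) ^ (3 / 4 : ℝ) := by
              rw [← Real.rpow_add hy0]; norm_num
      exact le_of_mul_le_mul_left h5 (by positivity)
  · have h3 := hlow.trans hup
    have h4 : Real.sqrt y = (y : ℝ) ^ (1 / 2 : ℝ) := Real.sqrt_eq_rpow _
    have h5 : Real.sqrt y * Real.sqrt y = y := Real.mul_self_sqrt hy0.le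
    rw [← h4] at h1
    have hs0 : 0 < Real.sqrt y := Real.sqrt_pos.2 hy0
    rw [div_le_iff₀ hL0]
    have h6 : Real.sqrt y * Real.log y ≤ y / 144000 := by
      calc Real.sqrt y * Real.log y ≤ Real.sqrt y * (1 / 144000 * Real.sqrt y) :=
            mul_le_mul_of_nonneg_left h1 hs0.le
        _ = (Real.sqrt y * Real.sqrt y) / 144000 := by ring
        _ = y / 144000 := by rw [h5]
    linarith
  · exact Nat.mul_pos (Nat.factorial_pos _) (Nat.factorial_pos _)
  · have hZ1 : (Z : ℝ) ≤ (y : ℝ) ^ (3 / 4 : ℝ) := Nat.floor_le (by positivity)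
    have hZ0 : 1 ≤ Z := by
      apply Nat.le_floor
      rw [Nat.cast_one]
      exact Real.one_le_rpow hy1 (by norm_num)
    have hZpos : (0 : ℝ) < Z := by exact_mod_cast hZ0
    have hlogZ : Real.log Z ≤ Real.log y := by
      apply Real.log_le_log hZpos
      refine hZ1.trans ?_
      calc (y : ℝ) ^ (3 / 4 : ℝ) ≤ (y : ℝ) ^ (1 : ℝ) :=
            Real.rpow_le_rpow_of_exponent_le hy1 (by norm_num)
        _ = y := Real.rpow_one _
    have hfac : Real.log (Z.factorial : ℝ) ≤ Z * Real.log Z := by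
      have h3 : (Z.factorial : ℝ) ≤ (Z : ℝ) ^ Z := by exact_mod_cast Nat.factorial_le_pow Z
      have h4 := Real.log_le_log (by exact_mod_cast Nat.factorial_pos Z) h3
      rwa [Real.log_pow] at h4
    have hf0 : (Z.factorial : ℝ) ≠ 0 := by exact_mod_cast (Nat.factorial_pos Z).ne'
    push_cast
    rw [Real.log_mul hf0 hf0]
    calc Real.log (Z.factorial : ℝ) + Real.log (Z.factorial : ℝ)
        ≤ 2 * (Z * Real.log Z) := by linarith
      _ ≤ 2 * ((y : ℝ) ^ (3 / 4 : ℝ) * Real.log y) := by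
          apply mul_le_mul_of_nonneg_left _ (by norm_num)
          exact mul_le_mul hZ1 hlogZ (Real.log_nonneg (by exact_mod_cast hZ0)) (by positivity)
      _ ≤ 2 * ((y : ℝ) ^ (3 / 4 : ℝ) * (1 / 2 * (y : ℝ) ^ (1 / 20 : ℝ))) := by
          apply mul_le_mul_of_nonneg_left _ (by norm_num)
          exact mul_le_mul_of_nonneg_left h2 (by positivity)
      _ = (y : ℝ) ^ (3 / 4 : ℝ) * (y : ℝ) ^ (1 / 20 : ℝ) := by ring
      _ = (y : ℝ) ^ (4 / 5 : ℝ) := by rw [← Real.rpow_add hy0]; norm_num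

end Pool.Agent.Y950.SMO
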