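import Pool.Agent.Y826.Z.Defs

/-! Project Y826/Z, job ZZ: the boxes satisfy the grouping condition. -/

set_option autoImplicit false

open Finset Filter

namespace Pool.Agent.Y950.Z

open Pool.Agent.Y826.Z

lemma rpow_pow' {X : ℝ} (hX : 0 ≤ X) (y : ℝ) (n : ℕ) : (X ^ y) ^ n = X ^ (y * n) := by
  rw [← Real.rpow_natCast, ← Real.rpow_mul hX]

lemma szg_eq {K : ℕ} {X : ℝ} (hX : 1 < X) (Q : Fin K → ℝ) (hQ : ∀ j, 0 < Q j) (g : Fin K → Fin 5)
    (i : Fin 5) :
    szg Q g i = X ^ (∑ j ∈ univ.filter (fun j => g j = i), Real.log (Q j) / Real.log X) := by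
  unfold szg
  rw [Real.rpow_sum_of_pos (by linarith)]
  refine prod_congr rfl fun j _ => ?_
  have hL : Real.log X ≠ 0 := (Real.log_pos hX).ne'
  rw [Real.rpow_def_of_pos (by linarith), mul_div_cancel₀ _ hL, Real.exp_log (hQ j)]

lemma groupOK_of_good {K : ℕ} {δ : ℝ} (hδ : 0 < δ) {t : Fin K → ℝ} (hG : GoodT δ t) :
    ∀ᶠ X : ℝ in atTop, ∀ Q : Fin K → ℝ, (∀ j, 1 / 2 ≤ Q j) → (∀ j, Q j ≤ X ^ t j) →
      X ^ (1 / 2 - δ) ≤ ∏ j, Q j → GroupOK (δ / 4) X Q := by
  have e1 : ∀ᶠ X : ℝ in atTop, Real.log 16 ≤ δ * Real.log X :=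
    (Real.tendsto_log_atTop.const_mul_atTop hδ).eventually_ge_atTop _
  have e2 : ∀ᶠ X : ℝ in atTop, (16 : ℝ) ^ 8 ≤ X ^ (3 * δ / 4) :=
    (tendsto_rpow_atTop (by positivity)).eventually_ge_atTop _
  have e3 : ∀ᶠ X : ℝ in atTop, (16 : ℝ) ≤ X ^ (1 / 12 : ℝ) :=
    (tendsto_rpow_atTop (by norm_num)).eventually_ge_atTop _
  filter_upwards [eventually_gt_atTop 1, e1, e2, e3] with X hX1 hX2 hX3 hX4
  intro Q hQ1 hQ2 hQ3 M N hMN1 hMN2 hN1 hN2
  have hX0 : 0 < X := by linarith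
  have hL : 0 < Real.log X := Real.log_pos hX1
  have hQ0 : ∀ j, 0 < Q j := fun j => lt_of_lt_of_le (by norm_num) (hQ1 j)
  have hNpos : (0 : ℝ) < N := lt_of_lt_of_le (by positivity) hN1
  have hMpos : (0 : ℝ) < M := by
    by_contra h
    have : (M : ℝ) = 0 := le_antisymm (not_lt.1 h) (Nat.cast_nonneg _)
    rw [this, zero_mul] at hMN1
    linarith
  set L := Real.log X with hLdef
  have hlog2 : Real.log 2 ≤ Real.log 16 := Real.log_le_log (by norm_num) (by norm_num)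
  obtain ⟨g, hg⟩ := hG (fun j => Real.log (Q j) / L) (fun j => by
      constructor
      · rw [le_div_iff₀ hL]
        have : Real.log (1 / 2) ≤ Real.log (Q j) := Real.log_le_log (by norm_num) (hQ1 j)
        rw [one_div, Real.log_inv] at this
        linarith
      · rw [div_le_iff₀ hL]
        have := Real.log_le_log (hQ0 j) (hQ2 j)
        rwa [Real.log_rpow hX0] at this) (by
      rw [← Finset.sum_div, le_div_iff₀ hL, ← Real.log_prod (fun j _ => (hQ0 j).ne')]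
      have := Real.log_le_log (Real.rpow_pos_of_pos hX0 _) hQ3
      rwa [Real.log_rpow hX0] at this) (Real.log N / L) (by
      rw [le_div_iff₀ hL]
      have := Real.log_le_log (by positivity) hN1
      rw [Real.log_div (Real.rpow_pos_of_pos hX0 _).ne' (by norm_num), Real.log_rpow hX0] at this
      linarith) (by
      rw [div_le_iff₀ hL]
      have := Real.log_le_log hNpos hN2
      rw [Real.log_mul (by norm_num) (Real.rpow_pos_of_pos hX0 _).ne', Real.log_rpow hX0] at this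
      linarith)
  refine ⟨g, ?_⟩
  obtain ⟨h1, h2, h3, h4, h5⟩ := hg (fun i => ∑ j ∈ univ.filter (fun j => g j = i),
    Real.log (Q j) / L) (fun _ => rfl) _ rfl
  rw [szg_eq hX1 Q hQ0 g 0, szg_eq hX1 Q hQ0 g 1, szg_eq hX1 Q hQ0 g 2, szg_eq hX1 Q hQ0 g 3,
    szg_eq hX1 Q hQ0 g 4]
  simp only [← hLdef]
  set y0 := ∑ j ∈ univ.filter (fun j => g j = 0), Real.log (Q j) / L
  set y1 := ∑ j ∈ univ.filter (fun j => g j = 1), Real.log (Q j) / L
  set y2 := ∑ j ∈ univ.filter (fun j => g j = 2), Real.log (Q j) / L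
  set y3 := ∑ j ∈ univ.filter (fun j => g j = 3), Real.log (Q j) / L
  set y4 := ∑ j ∈ univ.filter (fun j => g j = 4), Real.log (Q j) / L
  set ν := Real.log N / L with hνdef
  set η := max 0 (y0 + y1 + 2 * y2 + 2 * y3 + 2 * y4 - (1 - ν)) with hηdef
  have hNν : (N : ℝ) = X ^ ν := by
    rw [Real.rpow_def_of_pos hX0, hνdef, mul_div_cancel₀ _ hL.ne', Real.exp_log hNpos]
  have hMlow : X ^ (1 - ν) / 16 ≤ M := by
    rw [Real.rpow_sub hX0, Real.rpow_one, ← hNν, div_div, div_le_iff₀ (by positivity)]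
    linarith
  have hη0 : 0 ≤ η := le_max_left _ _
  -- the maximum
  set E := max 1 (X ^ y0 * X ^ y1 * (X ^ y2) ^ 2 * (X ^ y3) ^ 2 * (X ^ y4) ^ 2 / M) with hE
  have hE1 : 1 ≤ E := le_max_left _ _
  have hE16 : E ≤ 16 * X ^ η := by
    apply max_le
    · have := Real.one_le_rpow hX1.le hη0
      linarith
    · rw [div_le_iff₀ hMpos]
      have h : X ^ y0 * X ^ y1 * (X ^ y2) ^ 2 * (X ^ y3) ^ 2 * (X ^ y4) ^ 2 =
          X ^ (y0 + y1 + 2 * y2 + 2 * y3 + 2 * y4) := by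
        rw [rpow_pow' hX0.le, rpow_pow' hX0.le, rpow_pow' hX0.le, ← Real.rpow_add hX0,
          ← Real.rpow_add hX0, ← Real.rpow_add hX0, ← Real.rpow_add hX0]
        congr 1
        push_cast
        ring
      rw [h]
      calc X ^ (y0 + y1 + 2 * y2 + 2 * y3 + 2 * y4) ≤ X ^ (η + (1 - ν)) := by
            apply Real.rpow_le_rpow_of_exponent_le hX1.le
            have := le_max_right 0 (y0 + y1 + 2 * y2 + 2 * y3 + 2 * y4 - (1 - ν))
            linarith
        _ = 16 * X ^ η * (X ^ (1 - ν) / 16) := by rw [Real.rpow_add hX0]; ring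
        _ ≤ 16 * X ^ η * M := by
            apply mul_le_mul_of_nonneg_left hMlow
            positivity
  have hE4 : E ^ 4 ≤ 16 ^ 8 * X ^ (4 * η) := by
    calc E ^ 4 ≤ (16 * X ^ η) ^ 4 := pow_le_pow_left₀ (by linarith) hE16 4
      _ = 16 ^ 4 * X ^ (4 * η) := by
          rw [mul_pow, rpow_pow' hX0.le]
          congr 2
          push_cast
          ring
      _ ≤ 16 ^ 8 * X ^ (4 * η) := by
          apply mul_le_mul_of_nonneg_right (by norm_num) (by positivity)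
  have hE8 : E ^ 8 ≤ 16 ^ 8 * X ^ (8 * η) := by
    calc E ^ 8 ≤ (16 * X ^ η) ^ 8 := pow_le_pow_left₀ (by linarith) hE16 8
      _ = 16 ^ 8 * X ^ (8 * η) := by
          rw [mul_pow, rpow_pow' hX0.le]
          congr 2
          push_cast
          ring
  have hkey : ∀ a : ℝ, 16 ^ 8 * X ^ (a - δ) ≤ X ^ (a - δ / 4) := by
    intro a
    calc 16 ^ 8 * X ^ (a - δ) ≤ X ^ (3 * δ / 4) * X ^ (a - δ) :=
          mul_le_mul_of_nonneg_right hX3 (by positivity)
      _ = X ^ (a - δ / 4) := by rw [← Real.rpow_add hX0]; congr 1; ring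
  have hneg : X ^ (-(δ / 4)) = X ^ (-(δ / 4)) := rfl
  refine ⟨hMN1, hMN2, ?_, hN2, by positivity, by positivity, by positivity, by positivity,
    by positivity, ?_, ?_, ?_, ?_, ?_⟩
  · calc X ^ (1 / 4 : ℝ) = X ^ (1 / 3 : ℝ) / X ^ (1 / 12 : ℝ) := by
          rw [← Real.rpow_sub hX0]; norm_num
      _ ≤ X ^ (1 / 3 : ℝ) / 16 := by
          apply div_le_div_of_nonneg_left (by positivity) (by norm_num) hX4
      _ ≤ N := hN1
  · -- c1
    rw [← Real.rpow_add hX0, hNν, ← Real.rpow_add hX0]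
    apply Real.rpow_le_rpow_of_exponent_le hX1.le
    linarith
  · -- c2
    have h : X ^ y0 * X ^ y1 * (X ^ y2) ^ 2 * (X ^ y3) ^ 2 = X ^ (y0 + y1 + 2 * y2 + 2 * y3) := by
      rw [rpow_pow' hX0.le, rpow_pow' hX0.le, ← Real.rpow_add hX0, ← Real.rpow_add hX0,
        ← Real.rpow_add hX0]
      congr 1
      push_cast
      ring
    rw [h]
    calc X ^ (y0 + y1 + 2 * y2 + 2 * y3) ≤ X ^ (1 - ν - δ) :=
          Real.rpow_le_rpow_of_exponent_le hX1.le h2
      _ = 1 * X ^ (1 - ν - δ) := by rw [one_mul]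
      _ ≤ (16 ^ 8 / 16) * X ^ (1 - ν - δ) := by
          apply mul_le_mul_of_nonneg_right (by norm_num) (by positivity)
      _ = (16 ^ 8 * X ^ (1 - ν - δ)) / 16 := by ring
      _ ≤ X ^ (1 - ν - δ / 4) / 16 := by
          apply div_le_div_of_nonneg_right (hkey _) (by norm_num)
      _ = (X ^ (1 - ν) / 16) * X ^ (-(δ / 4)) := by
          rw [sub_eq_add_neg (1 - ν), Real.rpow_add hX0]; ring
      _ ≤ M * X ^ (-(δ / 4)) := mul_le_mul_of_nonneg_right hMlow (by positivity)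
  · -- c3
    have h : X ^ y0 * (X ^ y2) ^ 2 * (X ^ y4) ^ 4 = X ^ (y0 + 2 * y2 + 4 * y4) := by
      rw [rpow_pow' hX0.le, rpow_pow' hX0.le, ← Real.rpow_add hX0, ← Real.rpow_add hX0]
      congr 1
      push_cast
      ring
    rw [h]
    calc X ^ (y0 + 2 * y2 + 4 * y4) * E ^ 4 ≤ X ^ (y0 + 2 * y2 + 4 * y4) * (16 ^ 8 * X ^ (4 * η)) :=
          mul_le_mul_of_nonneg_left hE4 (by positivity)
      _ = 16 ^ 8 * X ^ (y0 + 2 * y2 + 4 * y4 + 4 * η) := by
          rw [Real.rpow_add hX0 (y0 + 2 * y2 + 4 * y4)]; ring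
      _ ≤ 16 ^ 8 * X ^ (ν - δ) := by
          apply mul_le_mul_of_nonneg_left _ (by norm_num)
          exact Real.rpow_le_rpow_of_exponent_le hX1.le h3
      _ ≤ X ^ (ν - δ / 4) := hkey _
      _ = N * X ^ (-(δ / 4)) := by rw [hNν, ← Real.rpow_add hX0, sub_eq_add_neg]
  · -- c4
    have h : X ^ y1 * (X ^ y3) ^ 2 = X ^ (y1 + 2 * y3) := by
      rw [rpow_pow' hX0.le, ← Real.rpow_add hX0]
      congr 1
      push_cast
      ring
    rw [h]
    calc X ^ (y1 + 2 * y3) * E ^ 8 ≤ X ^ (y1 + 2 * y3) * (16 ^ 8 * X ^ (8 * η)) :=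
          mul_le_mul_of_nonneg_left hE8 (by positivity)
      _ = 16 ^ 8 * X ^ (y1 + 2 * y3 + 8 * η) := by rw [Real.rpow_add hX0 (y1 + 2 * y3)]; ring
      _ ≤ 16 ^ 8 * X ^ (2 * ν - δ) := by
          apply mul_le_mul_of_nonneg_left _ (by norm_num)
          exact Real.rpow_le_rpow_of_exponent_le hX1.le h4
      _ ≤ X ^ (2 * ν - δ / 4) := hkey _
      _ = (N : ℝ) ^ 2 * X ^ (-(δ / 4)) := by
          rw [hNν, rpow_pow' hX0.le, ← Real.rpow_add hX0]
          congr 1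
          push_cast
          ring
  · -- c5
    have h : X ^ y1 * (X ^ y3) ^ 2 = X ^ (y1 + 2 * y3) := by
      rw [rpow_pow' hX0.le, ← Real.rpow_add hX0]
      congr 1
      push_cast
      ring
    rw [h]
    calc E ^ 8 * X ^ (δ / 4) ≤ (16 ^ 8 * X ^ (8 * η)) * X ^ (δ / 4) :=
          mul_le_mul_of_nonneg_right hE8 (by positivity)
      _ = 16 ^ 8 * X ^ (8 * η + 5 * δ / 4 - δ) := by
          rw [mul_assoc, ← Real.rpow_add hX0]
          congr 2
          ring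
      _ ≤ X ^ (8 * η + 5 * δ / 4 - δ / 4) := hkey _
      _ ≤ X ^ (y1 + 2 * y3) := by
          apply Real.rpow_le_rpow_of_exponent_le hX1.le
          linarith

end Pool.Agent.Y950.Z
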