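import Pool.Agent.Y826.Z.Defs
import Pool.Agent.W37.RK.BL1

/-! Project Y826/Z, job ZZ: trivial bounds for the discrepancies with divisor weights. -/

set_option autoImplicit false

open Finset Filter

namespace Pool.Agent.Y950.Z

open Pool.Agent.Y826.Z
open Pool.Agent.H378R2 (EPhi Phi)

lemma tau_nonneg (n : ℕ) : 0 ≤ tau n := Nat.cast_nonneg _

lemma one_le_tau {n : ℕ} (hn : n ≠ 0) : 1 ≤ tau n := by
  unfold tau
  exact_mod_cast Finset.card_pos.2 ⟨1, Nat.one_mem_divisors.2 hn⟩

lemma tau_prod_le {ι : Type*} (s : Finset ι) (x : ι → ℕ) :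
    tau (∏ j ∈ s, x j) ≤ ∏ j ∈ s, tau (x j) := by
  classical
  induction s using Finset.induction_on with
  | empty => simp [tau]
  | insert a s ha ih =>
    rw [Finset.prod_insert ha, Finset.prod_insert ha]
    calc tau (x a * ∏ j ∈ s, x j) ≤ tau (x a) * tau (∏ j ∈ s, x j) := by
          unfold tau
          exact_mod_cast W37.RK.card_div_mul_le _ _
      _ ≤ tau (x a) * ∏ j ∈ s, tau (x j) := mul_le_mul_of_nonneg_left ih (tau_nonneg _)

lemma tau_mono_dvd {d n : ℕ} (h : d ∣ n) (hn : n ≠ 0) : tau d ≤ tau n := by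
  unfold tau
  exact_mod_cast Finset.card_le_card (Nat.divisors_subset_of_dvd hn h)

lemma Phi_nonneg (u : ℝ) : 0 ≤ Phi u := le_max_left _ _

lemma Phi_le_one (u : ℝ) : Phi u ≤ 1 := by
  unfold Phi
  apply max_le (by norm_num)
  have := abs_nonneg (Real.log u - 1 / 2)
  linarith

lemma Phi_zero {u : ℝ} (h0 : 0 ≤ u) (h : u ≤ 1) : Phi u = 0 := by
  unfold Phi
  apply max_eq_left
  have h1 : Real.log u ≤ 0 := Real.log_nonpos h0 h
  have := neg_abs_le (Real.log u - 1 / 2)
  linarith

lemma Pr_pos {K : ℕ} {q : Fin K → ℕ} (h : Pr q ≠ 0) (j : Fin K) : q j ≠ 0 := by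
  unfold Pr at h
  rw [Finset.prod_ne_zero_iff] at h
  exact h j (mem_univ _)

/-- summation over the fibres of the product -/
lemma fiber_le {K : ℕ} (T : Finset (Fin K → ℕ)) (U : Finset ℕ) (hU : ∀ m ∈ U, m ≠ 0)
    (hT : ∀ q ∈ T, Pr q ∈ U) (f : ℕ → ℝ) (hf : ∀ m, 0 ≤ f m) :
    ∑ q ∈ T, f (Pr q) ≤ ∑ m ∈ U, tau m ^ K * f m := by
  classical
  rw [← Finset.sum_fiberwise_of_maps_to hT]
  refine Finset.sum_le_sum fun m hm => ?_
  calc ∑ q ∈ T.filter (fun q => Pr q = m), f (Pr q) = ∑ q ∈ T.filter (fun q => Pr q = m), f m := by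
        refine Finset.sum_congr rfl fun q hq => ?_
        rw [(Finset.mem_filter.1 hq).2]
    _ = ((T.filter (fun q => Pr q = m)).card : ℝ) * f m := by rw [sum_const, nsmul_eq_mul]
    _ ≤ tau m ^ K * f m := by
        apply mul_le_mul_of_nonneg_right _ (hf m)
        have h1 : T.filter (fun q => Pr q = m) ⊆ Fintype.piFinset (fun _ : Fin K => m.divisors) := by
          intro q hq
          rw [Fintype.mem_piFinset]
          intro j
          rw [Nat.mem_divisors]
          refine ⟨?_, hU m hm⟩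
          rw [← (Finset.mem_filter.1 hq).2]
          exact Finset.dvd_prod_of_mem _ (mem_univ j)
        have h2 := Finset.card_le_card h1
        rw [Fintype.card_piFinset_const] at h2
        unfold tau
        exact_mod_cast h2

/-- the tuples whose conditions hold at `n` -/
lemma tuples_le {K : ℕ} (h : Fin K → ℤ) (n : ℕ) (hn : ∀ j, (n : ℤ) + h j ≠ 0)
    (T : Finset (Fin K → ℕ)) (hT : ∀ q ∈ T, Cd h q n) (C : ℕ) :
    ∑ q ∈ T, tau (Pr q) ^ C ≤ ∏ j, tau (((n : ℤ) + h j).natAbs) ^ (C + 1) := by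
  classical
  have h1 : T ⊆ Fintype.piFinset (fun j : Fin K => (((n : ℤ) + h j).natAbs).divisors) := by
    intro q hq
    rw [Fintype.mem_piFinset]
    intro j
    rw [Nat.mem_divisors]
    refine ⟨?_, by simpa using hn j⟩
    have := hT q hq j
    exact Int.natCast_dvd.1 this
  calc ∑ q ∈ T, tau (Pr q) ^ C
      ≤ ∑ q ∈ Fintype.piFinset (fun j : Fin K => (((n : ℤ) + h j).natAbs).divisors),
          tau (Pr q) ^ C :=
        Finset.sum_le_sum_of_subset_of_nonneg h1 fun q _ _ => pow_nonneg (tau_nonneg _) _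
    _ ≤ ∑ q ∈ Fintype.piFinset (fun j : Fin K => (((n : ℤ) + h j).natAbs).divisors),
          ∏ j, tau (q j) ^ C := by
        refine Finset.sum_le_sum fun q _ => ?_
        rw [Finset.prod_pow]
        exact pow_le_pow_left₀ (tau_nonneg _) (tau_prod_le _ _) _
    _ = ∏ j, ∑ d ∈ (((n : ℤ) + h j).natAbs).divisors, tau d ^ C := by
        rw [Finset.prod_univ_sum]
    _ ≤ ∏ j, tau (((n : ℤ) + h j).natAbs) ^ (C + 1) := by
        refine Finset.prod_le_prod (fun j _ => Finset.sum_nonneg fun d _ =>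
          pow_nonneg (tau_nonneg _) _) fun j _ => ?_
        calc ∑ d ∈ (((n : ℤ) + h j).natAbs).divisors, tau d ^ C
            ≤ ∑ d ∈ (((n : ℤ) + h j).natAbs).divisors, tau (((n : ℤ) + h j).natAbs) ^ C := by
              refine Finset.sum_le_sum fun d hd => ?_
              exact pow_le_pow_left₀ (tau_nonneg _)
                (tau_mono_dvd (Nat.dvd_of_mem_divisors hd) (by simpa using hn j)) _
          _ = tau (((n : ℤ) + h j).natAbs) ^ (C + 1) := by
              rw [Finset.sum_const, nsmul_eq_mul, pow_succ']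
              rfl

/-- a product is at most a sum of powers -/
lemma prod_le_sum {K : ℕ} (a : Fin K → ℝ) (ha : ∀ j, 0 ≤ a j) :
    ∏ j, a j ≤ 1 + ∑ j, a j ^ K := by
  rcases Nat.eq_zero_or_pos K with rfl | hK
  · simp
  · obtain ⟨j0, -, hj0⟩ := Finset.exists_max_image (univ : Finset (Fin K)) a ⟨⟨0, hK⟩, mem_univ _⟩
    calc ∏ j, a j ≤ ∏ j : Fin K, a j0 :=
          Finset.prod_le_prod (fun j _ => ha j) fun j _ => hj0 j (mem_univ _)
      _ = a j0 ^ K := by rw [Finset.prod_const, Finset.card_univ, Fintype.card_fin]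
      _ ≤ ∑ j, a j ^ K :=
          Finset.single_le_sum (f := fun j => a j ^ K) (fun j _ => pow_nonneg (ha j) _)
            (mem_univ j0)
      _ ≤ 1 + ∑ j, a j ^ K := by linarith

/-- moments of the divisor function at the shifts -/
lemma shift_moment (hh : ℤ) (N H : ℕ) (hH : hh.natAbs ≤ H) (k : ℕ) (s : Finset ℕ)
    (hs : ∀ n ∈ s, H < n ∧ n ≤ N) :
    ∑ n ∈ s, tau (((n : ℤ) + hh).natAbs) ^ k ≤ ((N + H : ℕ) : ℝ) * (1 + Real.log ((N + H : ℕ) : ℝ)) ^ (2 ^ k) := by
  classical
  have hinj : Set.InjOn (fun n : ℕ => ((n : ℤ) + hh).natAbs) s := by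
    intro n hn m hm hnm
    have h1 := (hs n hn).1
    have h2 := (hs m hm).1
    simp only at hnm
    omega
  calc ∑ n ∈ s, tau (((n : ℤ) + hh).natAbs) ^ k
      = ∑ m ∈ s.image (fun n : ℕ => ((n : ℤ) + hh).natAbs), tau m ^ k := by
        rw [Finset.sum_image hinj]
    _ ≤ ∑ m ∈ Icc 1 (N + H), tau m ^ k := by
        refine Finset.sum_le_sum_of_subset_of_nonneg ?_ fun m _ _ => pow_nonneg (tau_nonneg _) _
        intro m hm
        rw [Finset.mem_image] at hm
        obtain ⟨n, hn, rfl⟩ := hm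
        have h1 := hs n hn
        rw [mem_Icc]
        omega
    _ ≤ _ := W37.RK.sum_card_pow k (N + H)

lemma moment (K : ℕ) (h : Fin K → ℤ) (C : ℕ) : ∃ C' : ℕ, ∃ X0 : ℝ, 3 ≤ X0 ∧ ∀ X : ℝ, X0 ≤ X →
    (∀ n : ℕ, X < n → ∀ j, (n : ℤ) + h j ≠ 0) ∧
    ∑ n ∈ (Icc 1 ⌊3 * X⌋₊).filter (fun n : ℕ => X < n), ∏ j, tau (((n : ℤ) + h j).natAbs) ^ C ≤
      X * (Real.log X) ^ C' := by
  classical
  set H : ℕ := ∑ j, (h j).natAbs with hHdef
  have hH : ∀ j, (h j).natAbs ≤ H := fun j =>
    Finset.single_le_sum (f := fun j => (h j).natAbs) (fun _ _ => Nat.zero_le _) (mem_univ j)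
  set R : ℕ := 2 ^ (C * K) with hR
  refine ⟨R + 1 + R + 4 * (K + 1), max (H + 3 : ℝ) (Real.exp 3), ?_, fun X hX => ?_⟩
  · refine le_trans ?_ (le_max_left _ _)
    have : (0 : ℝ) ≤ H := Nat.cast_nonneg _
    linarith
  have hX1 : (H + 3 : ℝ) ≤ X := (le_max_left _ _).trans hX
  have hX2 : Real.exp 3 ≤ X := (le_max_right _ _).trans hX
  have hH0 : (0 : ℝ) ≤ H := Nat.cast_nonneg _
  have hX0 : 0 < X := by linarith
  have hL : 3 ≤ Real.log X := by
    rw [Real.le_log_iff_exp_le hX0]; exact hX2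
  constructor
  · intro n hn j
    have h1 : (H : ℝ) < n := by linarith
    have h2 : H < n := by exact_mod_cast h1
    have := hH j
    omega
  set N := ⌊3 * X⌋₊ with hN
  have hN3 : (N : ℝ) ≤ 3 * X := Nat.floor_le (by linarith)
  set s := (Icc 1 N).filter (fun n : ℕ => X < n) with hs
  have hs' : ∀ n ∈ s, H < n ∧ n ≤ N := by
    intro n hn
    rw [hs, Finset.mem_filter, mem_Icc] at hn
    refine ⟨?_, hn.1.2⟩
    have h1 : (H : ℝ) < n := by linarith [hn.2]
    exact_mod_cast h1
  have hcard : (s.card : ℝ) ≤ 3 * X := by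
    refine le_trans ?_ hN3
    have : s.card ≤ N := by
      calc s.card ≤ (Icc 1 N).card := Finset.card_filter_le _ _
        _ = N := by rw [Nat.card_Icc]; omega
    exact_mod_cast this
  have hNH : ((N + H : ℕ) : ℝ) ≤ 4 * X := by push_cast; linarith
  have hNH1 : (1 : ℝ) ≤ ((N + H : ℕ) : ℝ) := by
    have : 1 ≤ N := by
      rw [hN]; apply Nat.le_floor; push_cast; linarith
    exact_mod_cast (by omega : 1 ≤ N + H)
  have hlog : 1 + Real.log ((N + H : ℕ) : ℝ) ≤ (Real.log X) ^ 2 := by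
    have h1 : Real.log ((N + H : ℕ) : ℝ) ≤ Real.log (4 * X) := Real.log_le_log (by linarith) hNH
    rw [Real.log_mul (by norm_num) hX0.ne'] at h1
    have h4 : Real.log 4 ≤ 2 := by
      have : Real.log 4 = 2 * Real.log 2 := by
        rw [show (4 : ℝ) = 2 ^ 2 by norm_num, Real.log_pow]; norm_num
      have h2 := Real.log_two_lt_d9
      linarith
    nlinarith [sq_nonneg (Real.log X - 3)]
  calc ∑ n ∈ s, ∏ j, tau (((n : ℤ) + h j).natAbs) ^ C
      ≤ ∑ n ∈ s, (1 + ∑ j, tau (((n : ℤ) + h j).natAbs) ^ (C * K)) := by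
        refine Finset.sum_le_sum fun n _ => ?_
        refine (prod_le_sum _ fun j => pow_nonneg (tau_nonneg _) _).trans ?_
        simp only [← pow_mul]
        exact le_rfl
    _ = s.card + ∑ j, ∑ n ∈ s, tau (((n : ℤ) + h j).natAbs) ^ (C * K) := by
        rw [Finset.sum_add_distrib, Finset.sum_comm]
        simp
    _ ≤ 3 * X + ∑ j : Fin K, (4 * X) * ((Real.log X) ^ 2) ^ R := by
        apply add_le_add hcard
        refine Finset.sum_le_sum fun j _ => ?_
        refine (shift_moment (h j) N H (hH j) (C * K) s hs').trans ?_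
        apply mul_le_mul hNH _ (by positivity) (by linarith)
        apply pow_le_pow_left₀ _ hlog
        have := Real.log_nonneg hNH1
        linarith
    _ = 3 * X + K * ((4 * X) * ((Real.log X) ^ 2) ^ R) := by
        rw [Finset.sum_const, nsmul_eq_mul, Finset.card_univ, Fintype.card_fin]
    _ ≤ X * (Real.log X) ^ (R + 1 + R + 4 * (K + 1)) := by
        have hLL : 1 ≤ (Real.log X) ^ (2 * R) := one_le_pow₀ (by linarith)
        have h5 : (K : ℝ) + 1 ≤ (Real.log X) ^ (K + 1) := by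
          have h6 : ((K : ℝ) + 1) ≤ 2 ^ (K + 1) := by
            exact_mod_cast (Nat.lt_two_pow_self (n := K + 1)).le
          exact h6.trans (pow_le_pow_left₀ (by norm_num) (by linarith) _)
        have h7 : (4 : ℝ) ≤ (Real.log X) ^ 2 := by nlinarith
        calc 3 * X + K * ((4 * X) * ((Real.log X) ^ 2) ^ R)
            ≤ (4 * X) * (Real.log X) ^ (2 * R) + K * ((4 * X) * (Real.log X) ^ (2 * R)) := by
              rw [← pow_mul]
              have : 3 * X ≤ (4 * X) * (Real.log X) ^ (2 * R) := by nlinarith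
              linarith
          _ = X * (4 * (K + 1) * (Real.log X) ^ (2 * R)) := by ring
          _ ≤ X * ((Real.log X) ^ 2 * (Real.log X) ^ (K + 1) * (Real.log X) ^ (2 * R)) := by
              apply mul_le_mul_of_nonneg_left _ hX0.le
              apply mul_le_mul_of_nonneg_right _ (by positivity)
              apply mul_le_mul h7 h5 (by positivity) (by positivity)
          _ = X * (Real.log X) ^ (2 + (K + 1) + 2 * R) := by rw [← pow_add, ← pow_add]
          _ ≤ X * (Real.log X) ^ (R + 1 + R + 4 * (K + 1)) := by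
              apply mul_le_mul_of_nonneg_left _ hX0.le
              apply pow_le_pow_right₀ (by linarith)
              omega

end Pool.Agent.Y950.Z
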